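import Pool.Agent.helper4.Pack.Final

/-! # MP_086921_co: packing k graphs, own version with the sharpness of n - k -/

set_option autoImplicit false

namespace Pool.Agent.PKG

universe u

/-- `k` graphs of order `n` (with vertex sets `V i`) can be packed: there are bijections of their
vertex sets to `{0, ..., n-1}` for which the images of the edge sets are pairwise disjoint. -/
def CanPack {k : ℕ} (n : ℕ) {V : Fin k → Type u} (G : ∀ i, SimpleGraph (V i)) : Prop :=
  ∃ σ : ∀ i, V i ≃ Fin n, ∀ i j, i ≠ j →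
    Disjoint (Sym2.map (σ i) '' (G i).edgeSet) (Sym2.map (σ j) '' (G j).edgeSet)

theorem card_map_edgeSet {V W : Type*} (G : SimpleGraph V) (e : V ≃ W) :
    Nat.card (G.map e.toEmbedding).edgeSet = Nat.card G.edgeSet :=
  (Nat.card_congr (SimpleGraph.Iso.map e G).mapEdgeSet).symm

/-- the packing theorem for arbitrary vertex sets -/
theorem pack (k : ℕ) : ∃ N : ℕ, ∀ n, N ≤ n → ∀ (V : Fin k → Type u) [∀ i, Fintype (V i)]
    (G : ∀ i, SimpleGraph (V i)), (∀ i, Fintype.card (V i) = n) →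
    (∀ i, (G i).edgeSet.ncard + k ≤ n) → CanPack n G := by
  obtain ⟨N, hN⟩ := Pool.Agent.helper4.Pack.packing k
  refine ⟨N, fun n hn V _ G hV hG => ?_⟩
  have e : ∀ i, V i ≃ Fin n := fun i => Fintype.equivFinOfCardEq (hV i)
  obtain ⟨σ, hσ⟩ := hN n hn (fun i => (G i).map (e i).toEmbedding) (fun l => by
    rw [Pool.Agent.helper4.Pack.sum_dg_eq, card_map_edgeSet]
    have := hG l
    rw [← Nat.card_coe_set_eq] at this
    omega)
  refine ⟨fun i => (e i).trans (σ i), fun i j hij => ?_⟩
  rw [Set.disjoint_left]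
  rintro _ ⟨x, hx, rfl⟩ ⟨y, hy, hxy⟩
  induction x using Sym2.ind with
  | _ a b =>
  induction y using Sym2.ind with
  | _ c d =>
  have hab : (G i).Adj a b := hx
  have hcd : (G j).Adj c d := hy
  have h1 : ((G j).map (e j).toEmbedding).Adj (e j c) (e j d) :=
    (SimpleGraph.map_adj_apply (f := (e j).toEmbedding)).2 hcd
  have h2 : ∀ a' b', (G i).Adj a' b' → (σ i) (e i a') = σ j (e j c) →
      (σ i) (e i b') = σ j (e j d) → False := by
    intro a' b' hab' ha' hb'
    refine hσ i j hij _ _ h1 ?_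
    rw [← ha', ← hb', Equiv.symm_apply_apply, Equiv.symm_apply_apply]
    exact (SimpleGraph.map_adj_apply (f := (e i).toEmbedding)).2 hab'
  rw [Sym2.map_mk, Sym2.map_mk] at hxy
  rcases Sym2.eq_iff.1 hxy with ⟨h3, h4⟩ | ⟨h3, h4⟩
  · exact h2 a b hab h3.symm h4.symm
  · exact h2 b a hab.symm h3.symm h4.symm

/-- the star with `n - k + 1` leaves and `k - 2` isolated vertices -/
def star (k n : ℕ) : SimpleGraph (Fin n) where
  Adj u v := (u.val = 0 ∧ k ≤ v.val + 1 ∧ v.val ≠ 0) ∨ (v.val = 0 ∧ k ≤ u.val + 1 ∧ u.val ≠ 0)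
  symm := ⟨fun _ _ h => h.symm⟩
  loopless := ⟨fun _ h => by omega⟩

/-- a graph without isolated vertices and with at most `n / 2 + 1` edges -/
def mat (n : ℕ) : SimpleGraph (Fin n) where
  Adj u v := (u.val + 1 = v.val ∧ (v.val % 2 = 1 ∨ v.val + 1 = n)) ∨
    (v.val + 1 = u.val ∧ (u.val % 2 = 1 ∨ u.val + 1 = n))
  symm := ⟨fun _ _ h => h.symm⟩
  loopless := ⟨fun _ h => by omega⟩

theorem star_card (k n : ℕ) (hk : 2 ≤ k) (hn : 2 * k ≤ n) :
    (star k n).edgeSet.ncard + k ≤ n + 1 := by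
  classical
  have h0 : 0 < n := by omega
  set T : Finset (Fin n) := Finset.univ.filter (fun v => k ≤ v.val + 1) with hT
  have h1 : (star k n).edgeSet ⊆ ((T.image fun v => s((⟨0, h0⟩ : Fin n), v)) : Set (Sym2 (Fin n))) := by
    intro x hx
    induction x using Sym2.ind with
    | _ a b =>
    have hab : (star k n).Adj a b := hx
    rw [Finset.coe_image]
    rcases hab with ⟨h2, h3, _⟩ | ⟨h2, h3, _⟩
    · refine ⟨b, by simp [hT, h3], ?_⟩
      have : a = ⟨0, h0⟩ := Fin.ext h2
      rw [this]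
    · refine ⟨a, by simp [hT, h3], ?_⟩
      have : b = ⟨0, h0⟩ := Fin.ext h2
      rw [this]
      exact Sym2.eq_swap
  have h2 : (star k n).edgeSet.ncard ≤ T.card := by
    refine (Set.ncard_le_ncard h1 (Finset.finite_toSet _)).trans ?_
    rw [Set.ncard_coe_finset]
    exact Finset.card_image_le
  have h3 : T.card ≤ (Finset.Ico (k - 1) n).card := by
    refine Finset.card_le_card_of_injOn (fun v => v.val) ?_ (Fin.val_injective.injOn)
    intro v hv
    have : k ≤ v.val + 1 := by simpa [hT] using hv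
    have := v.isLt
    simp only [Finset.coe_Ico, Set.mem_Ico]
    omega
  rw [Nat.card_Ico] at h3
  omega

theorem mat_card (k n : ℕ) (hk : 2 ≤ k) (hn : 2 * k ≤ n) :
    (mat n).edgeSet.ncard + k ≤ n + 1 := by
  classical
  have h0 : 0 < n := by omega
  set T : Finset (Fin n) := Finset.univ.filter (fun v => 1 ≤ v.val ∧ (v.val % 2 = 1 ∨ v.val + 1 = n))
    with hT
  have h1 : (mat n).edgeSet ⊆ ((T.image fun v => s((⟨v.val - 1, by omega⟩ : Fin n), v)) :
      Set (Sym2 (Fin n))) := by
    intro x hx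
    induction x using Sym2.ind with
    | _ a b =>
    have hab : (mat n).Adj a b := hx
    rw [Finset.coe_image]
    rcases hab with ⟨h2, h3⟩ | ⟨h2, h3⟩
    · refine ⟨b, by simp [hT]; omega, ?_⟩
      have : a = ⟨b.val - 1, by omega⟩ := Fin.ext (by simp; omega)
      rw [this]
    · refine ⟨a, by simp [hT]; omega, ?_⟩
      have : b = ⟨a.val - 1, by omega⟩ := Fin.ext (by simp; omega)
      rw [this]
      exact Sym2.eq_swap
  have h2 : (mat n).edgeSet.ncard ≤ T.card := by
    refine (Set.ncard_le_ncard h1 (Finset.finite_toSet _)).trans ?_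
    rw [Set.ncard_coe_finset]
    exact Finset.card_image_le
  have h3 : T.card ≤ (Finset.range ((n - 1) / 2 + 1)).card := by
    refine Finset.card_le_card_of_injOn (fun v => v.val / 2) ?_ ?_
    · intro v hv
      have := v.isLt
      simp only [Finset.coe_range, Set.mem_Iio]
      omega
    · intro v hv w hw hvw
      have hv' : 1 ≤ v.val ∧ (v.val % 2 = 1 ∨ v.val + 1 = n) := by simpa [hT] using hv
      have hw' : 1 ≤ w.val ∧ (w.val % 2 = 1 ∨ w.val + 1 = n) := by simpa [hT] using hw
      have h4 : v.val / 2 = w.val / 2 := hvw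
      have := v.isLt
      have := w.isLt
      apply Fin.ext
      omega
  rw [Finset.card_range] at h3
  omega

theorem mat_nbr (n : ℕ) (hn : 2 ≤ n) (u : Fin n) : ∃ v, (mat n).Adj u v := by
  have := u.isLt
  rcases Nat.lt_or_ge (u.val % 2) 1 with h | h
  · by_cases h1 : u.val + 1 = n
    · exact ⟨⟨u.val - 1, by omega⟩, Or.inr ⟨by simp; omega, Or.inr h1⟩⟩
    · exact ⟨⟨u.val + 1, by omega⟩, Or.inl ⟨rfl, Or.inl (by simp; omega)⟩⟩
  · exact ⟨⟨u.val - 1, by omega⟩, Or.inr ⟨by simp; omega, Or.inl (by omega)⟩⟩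

/-- the example: a star and `k - 1` graphs without isolated vertices -/
def ex (k n : ℕ) (i : Fin k) : SimpleGraph (Fin n) := if i.val = 0 then star k n else mat n

theorem ex_not (k n : ℕ) (hk : 2 ≤ k) (hn : 2 * k ≤ n) : ¬ CanPack n (ex k n) := by
  classical
  rintro ⟨σ, hσ⟩
  have h0 : 0 < n := by omega
  set z : Fin n := ⟨0, h0⟩ with hz
  set i0 : Fin k := ⟨0, by omega⟩ with hi0
  have e0 : ex k n i0 = star k n := by simp [ex, hi0]
  have e1 : ∀ i : Fin k, i ≠ i0 → ex k n i = mat n := by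
    intro i hi
    have : i.val ≠ 0 := fun h => hi (Fin.ext h)
    simp [ex, this]
  -- the neighbours
  have hw : ∀ i : Fin k, ∃ w : Fin n, (mat n).Adj ((σ i).symm (σ i0 z)) w := fun i =>
    mat_nbr n (by omega) _
  choose w hw using hw
  set r : Fin k → Fin n := fun i => (σ i0).symm (σ i (w i)) with hr
  have hedge : ∀ i, i ≠ i0 →
      s(σ i0 z, σ i (w i)) ∈ Sym2.map (σ i) '' (ex k n i).edgeSet := by
    intro i hi
    rw [e1 i hi]
    refine ⟨s((σ i).symm (σ i0 z), w i), hw i, ?_⟩
    rw [Sym2.map_mk, Equiv.apply_symm_apply]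
  have hr1 : ∀ i, i ≠ i0 → r i ≠ z := by
    intro i hi h
    have h2 : σ i (w i) = σ i0 z := by
      rw [← h, hr, Equiv.apply_symm_apply]
    have h3 : w i = (σ i).symm (σ i0 z) := by rw [← h2, Equiv.symm_apply_apply]
    exact (hw i).ne h3.symm
  have hr2 : ∀ i, i ≠ i0 → (r i).val + 1 < k := by
    intro i hi
    by_contra hlt
    have h2 : (star k n).Adj z (r i) := by
      refine Or.inl ⟨rfl, by omega, fun h => hr1 i hi (Fin.ext h)⟩
    have h3 : s(σ i0 z, σ i (w i)) ∈ Sym2.map (σ i0) '' (ex k n i0).edgeSet := by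
      rw [e0]
      refine ⟨s(z, r i), h2, ?_⟩
      rw [Sym2.map_mk, hr, Equiv.apply_symm_apply]
    exact Set.disjoint_left.1 (hσ i0 i hi.symm) h3 (hedge i hi)
  have hinj : ∀ i j, i ≠ i0 → j ≠ i0 → r i = r j → i = j := by
    intro i j hi hj h
    by_contra hij
    have h2 : σ i (w i) = σ j (w j) := (σ i0).symm.injective h
    have h3 := hedge i hi
    rw [h2] at h3
    exact Set.disjoint_left.1 (hσ i j hij) h3 (hedge j hj)
  have hcard : (Finset.univ.erase i0).card ≤ (Finset.Ico 1 (k - 1)).card := by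
    refine Finset.card_le_card_of_injOn (fun i => (r i).val) ?_ ?_
    · intro i hi
      have hi' : i ≠ i0 := by simpa using hi
      have h2 := hr2 i hi'
      have h3 : (r i).val ≠ 0 := fun h => hr1 i hi' (Fin.ext h)
      simp only [Finset.coe_Ico, Set.mem_Ico]
      omega
    · intro i hi j hj h
      exact hinj i j (by simpa using hi) (by simpa using hj) (Fin.ext h)
  rw [Finset.card_erase_of_mem (Finset.mem_univ _), Finset.card_univ, Fintype.card_fin,
    Nat.card_Ico] at hcard
  omega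

/-- the number `n - k` of edges is best possible -/
theorem sharp (k n : ℕ) (hk : 2 ≤ k) (hn : 2 * k ≤ n) :
    ∃ G : Fin k → SimpleGraph (Fin n),
      (∀ i, (G i).edgeSet.ncard + k ≤ n + 1) ∧ ¬ CanPack n G := by
  refine ⟨ex k n, fun i => ?_, ex_not k n hk hn⟩
  unfold ex
  split
  · exact star_card k n hk hn
  · exact mat_card k n hk hn

end Pool.Agent.PKG
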